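import Pool.Agent.H43.BZ.Stm3

/-!
# LHES: at a contact point the second derivatives are ordered, and `aHess` is monotone
-/

set_option autoImplicit false

open MeasureTheory Metric Set Filter Topology
open scoped RealInnerProductSpace ENNReal

namespace Pool.Agent.H44.BZ

open Pool.Agent.H43.BZ

/-- one dimensional second derivative test -/
theorem snd_nonpos {ψ : ℝ → ℝ} (h0 : ψ 0 = 0) (hle : ∀ t, ψ t ≤ 0) (hc : ContinuousAt ψ 0) :
    deriv (deriv ψ) 0 ≤ 0 := by
  by_contra hne
  rw [not_le] at hne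
  have hmax : IsLocalMax ψ 0 := by
    refine Eventually.of_forall fun t => ?_
    rw [h0]; exact hle t
  have h1 : deriv ψ 0 = 0 := hmax.deriv_eq_zero
  have hmin : IsLocalMin ψ 0 := isLocalMin_of_deriv_deriv_pos hne h1 hc
  have h2 : ψ =ᶠ[𝓝 0] fun _ => 0 := by
    filter_upwards [hmin] with t ht
    rw [h0] at ht
    exact le_antisymm (hle t) ht
  have h3 : deriv ψ =ᶠ[𝓝 0] deriv (fun _ => (0 : ℝ)) := h2.deriv
  have h4 : deriv (deriv ψ) 0 = deriv (deriv (fun _ : ℝ => (0 : ℝ))) 0 := h3.deriv_eq
  rw [h4] at hne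
  simp at hne

/-- Cauchy-Schwarz for a semidefinite symmetric form -/
theorem cs_form {V : Type*} [AddCommGroup V] [Module ℝ V] (S : V → V → ℝ)
    (hadd : ∀ x y z, S (x + y) z = S x z + S y z) (hsm : ∀ (t : ℝ) x z, S (t • x) z = t * S x z)
    (hsym : ∀ x y, S x y = S y x) (hpos : ∀ x, 0 ≤ S x x) (x y : V) :
    S x y ^ 2 ≤ S x x * S y y := by
  have h : ∀ t : ℝ, 0 ≤ S y y * (t * t) + 2 * S x y * t + S x x := by
    intro t
    have h1 := hpos (x + t • y)
    have h2 : S (x + t • y) (x + t • y) = S y y * (t * t) + 2 * S x y * t + S x x := by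
      rw [hadd, hsm, hsym x (x + t • y), hsym y (x + t • y), hadd, hadd, hsm, hsm, hsym y x]
      ring
    rwa [h2] at h1
  have h3 := discrim_le_zero h
  unfold discrim at h3
  nlinarith

theorem LHES : S_LHES := by
  intro d hd γ g h hg hh v hle hv z
  obtain ⟨φ, hφ⟩ : ∃ φ : E d → ℝ, φ = fun y => g y - h y := ⟨_, rfl⟩
  have hφc : ContDiff ℝ 2 φ := by rw [hφ]; exact hg.sub hh
  have hgd : Differentiable ℝ g := hg.differentiable (by norm_num)
  have hhd : Differentiable ℝ h := hh.differentiable (by norm_num)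
  have hφd : Differentiable ℝ φ := hφc.differentiable (by norm_num)
  have hg1 : ContDiff ℝ 1 (fderiv ℝ g) := hg.fderiv_right (by norm_num)
  have hh1 : ContDiff ℝ 1 (fderiv ℝ h) := hh.fderiv_right (by norm_num)
  have hφ1 : ContDiff ℝ 1 (fderiv ℝ φ) := hφc.fderiv_right (by norm_num)
  have hg2 : Differentiable ℝ (fderiv ℝ g) := hg1.differentiable (by norm_num)
  have hh2 : Differentiable ℝ (fderiv ℝ h) := hh1.differentiable (by norm_num)
  have hφ2 : Differentiable ℝ (fderiv ℝ φ) := hφ1.differentiable (by norm_num)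
  -- linearity
  have hlin : ∀ x : E d, d2 φ v x = d2 g v x - d2 h v x := by
    intro x
    have e1 : fderiv ℝ φ = fun y => fderiv ℝ g y - fderiv ℝ h y := by
      funext y
      rw [hφ]
      exact fderiv_fun_sub (hgd y) (hhd y)
    unfold d2
    rw [e1, fderiv_fun_sub (hg2 v) (hh2 v)]
    rfl
  -- second derivative test
  have hneg : ∀ x : E d, d2 φ v x ≤ 0 := by
    intro x
    have e0 : ∀ t : ℝ, HasDerivAt (fun t : ℝ => v + t • x) x t := by
      intro t
      have := ((hasDerivAt_id t).smul_const x).const_add v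
      simpa using this
    have e1 : ∀ t : ℝ, HasDerivAt (fun t : ℝ => φ (v + t • x)) (fderiv ℝ φ (v + t • x) x) t := by
      intro t
      exact (hφd (v + t • x)).hasFDerivAt.comp_hasDerivAt t (e0 t)
    have e2 : deriv (fun t : ℝ => φ (v + t • x)) = fun t => fderiv ℝ φ (v + t • x) x := by
      funext t
      exact (e1 t).deriv
    have e3 : HasDerivAt (fun t : ℝ => fderiv ℝ φ (v + t • x) x)
        (fderiv ℝ (fderiv ℝ φ) (v + (0 : ℝ) • x) x x) 0 := by
      have h1 := (hφ2 (v + (0 : ℝ) • x)).hasFDerivAt.comp_hasDerivAt (0 : ℝ) (e0 0)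
      exact h1.clm_apply (hasDerivAt_const (0 : ℝ) x) |>.congr_deriv (by simp)
    have e4 : deriv (deriv (fun t : ℝ => φ (v + t • x))) 0 = d2 φ v x := by
      rw [e2, e3.deriv]
      simp [d2]
    rw [← e4]
    refine snd_nonpos ?_ ?_ (e1 0).continuousAt
    · simp [hφ, hv]
    · intro t
      simp only [hφ]
      linarith [hle (v + t • x)]
  -- the form
  have hsymm : IsSymmSndFDerivAt ℝ φ v := hφc.contDiffAt.isSymmSndFDerivAt (by simp)
  obtain ⟨S, hS⟩ : ∃ S : E d → E d → ℝ, S = fun x y => -(fderiv ℝ (fderiv ℝ φ) v x y) := ⟨_, rfl⟩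
  have hadd : ∀ x y z, S (x + y) z = S x z + S y z := by
    intro x y z; simp only [hS, map_add, add_apply]; ring
  have hsm : ∀ (t : ℝ) x z, S (t • x) z = t * S x z := by
    intro t x z; simp only [hS, map_smul, smul_apply, smul_eq_mul]; ring
  have hsym : ∀ x y, S x y = S y x := by
    intro x y; simp only [hS]; rw [hsymm x y]
  have hpos : ∀ x, 0 ≤ S x x := by
    intro x
    have := hneg x
    simp only [hS]
    unfold d2 at this
    linarith
  have hSd : ∀ x, S x x = -d2 φ v x := fun x => by simp only [hS, d2]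
  -- the trace bound
  have hz : S z z = ∑ i : Fin d, z i * S (EuclideanSpace.single i 1) z := by
    have e : z = ∑ i : Fin d, z i • (EuclideanSpace.single i (1 : ℝ)) := by
      ext j
      simp [Pi.single_apply]
    have hlinS : ∀ (s : Finset (Fin d)), S (∑ i ∈ s, z i • (EuclideanSpace.single i (1 : ℝ))) z =
        ∑ i ∈ s, z i * S (EuclideanSpace.single i 1) z := by
      intro s
      induction s using Finset.induction_on with
      | empty =>
        simp only [Finset.sum_empty]
        have := hsm 0 0 z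
        simpa using this
      | insert a s ha ih => rw [Finset.sum_insert ha, Finset.sum_insert ha, hadd, hsm, ih]
    have := hlinS Finset.univ
    rw [← e] at this
    exact this
  have hnorm : ‖z‖ ^ 2 = ∑ i : Fin d, z i ^ 2 := by
    rw [EuclideanSpace.norm_sq_eq]
    simp
  have htr : S z z ≤ ‖z‖ ^ 2 * ∑ i : Fin d, S (EuclideanSpace.single i 1) (EuclideanSpace.single i 1) := by
    have hsum : 0 ≤ ∑ i : Fin d, S (EuclideanSpace.single i 1) (EuclideanSpace.single i 1) :=
      Finset.sum_nonneg fun i _ => hpos _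
    rcases (hpos z).eq_or_lt with h0 | h0
    · rw [← h0]; positivity
    · have h1 : S z z ^ 2 ≤ (∑ i : Fin d, z i ^ 2) * ∑ i : Fin d, S (EuclideanSpace.single i 1) z ^ 2 := by
        conv_lhs => rw [hz]
        exact Finset.sum_mul_sq_le_sq_mul_sq _ _ _
      have h2 : ∑ i : Fin d, S (EuclideanSpace.single i 1) z ^ 2 ≤
          (∑ i : Fin d, S (EuclideanSpace.single i 1) (EuclideanSpace.single i 1)) * S z z := by
        rw [Finset.sum_mul]
        exact Finset.sum_le_sum fun i _ => cs_form S hadd hsm hsym hpos _ _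
      rw [← hnorm] at h1
      have h3 : S z z ^ 2 ≤ ‖z‖ ^ 2 * ((∑ i : Fin d, S (EuclideanSpace.single i 1)
          (EuclideanSpace.single i 1)) * S z z) :=
        h1.trans (mul_le_mul_of_nonneg_left h2 (by positivity))
      have h4 : S z z * S z z ≤ (‖z‖ ^ 2 * ∑ i : Fin d, S (EuclideanSpace.single i 1)
          (EuclideanSpace.single i 1)) * S z z := by
        calc S z z * S z z = S z z ^ 2 := by ring
          _ ≤ _ := h3
          _ = _ := by ring
      exact le_of_mul_le_mul_right h4 h0
  -- conclusion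
  unfold aHess
  refine mul_le_mul_of_nonneg_left ?_ (Real.rpow_nonneg (norm_nonneg _) _)
  have h5 : ∑ i : Fin d, S (EuclideanSpace.single i 1) (EuclideanSpace.single i 1) =
      ∑ i : Fin d, d2 h v (EuclideanSpace.single i 1) - ∑ i : Fin d, d2 g v (EuclideanSpace.single i 1) := by
    rw [← Finset.sum_sub_distrib]
    refine Finset.sum_congr rfl fun i _ => ?_
    rw [hSd, hlin]; ring
  rw [h5, hSd, hlin] at htr
  nlinarith

end Pool.Agent.H44.BZ
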